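import Mathlib
import Pool.Agent.H97R2.BP.Defs
import Pool.Agent.H97R2.BP.Defs2

open scoped ComplexOrder InnerProductSpace ComplexConjugate TensorProduct
open Finset H759R2.Kad H710R2.DP

noncomputable section

namespace H97R2.BP

namespace ZZ455

/-- weak lower semicontinuity of the column norm -/
theorem lsc {H : Type} [NormedAddCommGroup H] [InnerProductSpace ℂ H] {I ι : Type} [Fintype ι]
    (U : Filter I) [U.NeBot] (T : I → ι → (H →L[ℂ] H)) (S : ι → (H →L[ℂ] H)) (c : ℝ) (η : H)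
    (hb : ∀ i, ∑ k, ‖T i k η‖ ^ 2 ≤ c * ‖η‖ ^ 2)
    (ht : ∀ k ζ, Filter.Tendsto (fun i => ⟪ζ, T i k η⟫_ℂ) U (nhds ⟪ζ, S k η⟫_ℂ)) :
    ∑ k, ‖S k η‖ ^ 2 ≤ c * ‖η‖ ^ 2 := by
  have h1 : Filter.Tendsto (fun i => ∑ k, (⟪S k η, T i k η⟫_ℂ).re) U
      (nhds (∑ k, (⟪S k η, S k η⟫_ℂ).re)) :=
    tendsto_finsetSum _ fun k _ => (Complex.continuous_re.tendsto _).comp (ht k (S k η))
  have h2 : ∀ i, ∑ k, (⟪S k η, T i k η⟫_ℂ).re ≤ (∑ k, ‖S k η‖ ^ 2 + c * ‖η‖ ^ 2) / 2 := by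
    intro i
    have h3 : ∀ k, (⟪S k η, T i k η⟫_ℂ).re ≤ (‖S k η‖ ^ 2 + ‖T i k η‖ ^ 2) / 2 := by
      intro k
      have h4 : (⟪S k η, T i k η⟫_ℂ).re ≤ ‖S k η‖ * ‖T i k η‖ :=
        (Complex.re_le_norm _).trans (norm_inner_le_norm _ _)
      nlinarith [sq_nonneg (‖S k η‖ - ‖T i k η‖)]
    calc ∑ k, (⟪S k η, T i k η⟫_ℂ).re ≤ ∑ k, (‖S k η‖ ^ 2 + ‖T i k η‖ ^ 2) / 2 :=
          Finset.sum_le_sum fun k _ => h3 k
      _ = (∑ k, ‖S k η‖ ^ 2 + ∑ k, ‖T i k η‖ ^ 2) / 2 := by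
          rw [← Finset.sum_div, Finset.sum_add_distrib]
      _ ≤ _ := by have := hb i; linarith
  have h5 := le_of_tendsto' h1 h2
  have h6 : ∑ k, (⟪S k η, S k η⟫_ℂ).re = ∑ k, ‖S k η‖ ^ 2 := by
    refine Finset.sum_congr rfl fun k _ => ?_
    have h7 : (⟪S k η, S k η⟫_ℂ) = (‖S k η‖ : ℂ) ^ 2 := inner_self_eq_norm_sq_to_K (𝕜 := ℂ) _
    rw [h7]
    norm_cast
  rw [h6] at h5
  linarith

section fin

variable {H : Type} [NormedAddCommGroup H] [InnerProductSpace ℂ H] [CompleteSpace H]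

/-- the compression to a finite dimensional subspace -/
def cmp (E : Submodule ℂ H) [FiniteDimensional ℂ E] (a : H →L[ℂ] H) : E →L[ℂ] E :=
  E.orthogonalProjectionOnto ∘L a ∘L E.subtypeL

/-- the extension by zero -/
def ext (E : Submodule ℂ H) [FiniteDimensional ℂ E] (b : E →L[ℂ] E) : H →L[ℂ] H :=
  E.subtypeL ∘L b ∘L E.orthogonalProjectionOnto

theorem ext_apply (E : Submodule ℂ H) [FiniteDimensional ℂ E] (b : E →L[ℂ] E) (x : H) :
    ext E b x = (b (E.orthogonalProjectionOnto x) : H) := rfl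

theorem ext_star (E : Submodule ℂ H) [FiniteDimensional ℂ E] (b : E →L[ℂ] E) :
    star (ext E b) = ext E b.adjoint := by
  rw [ContinuousLinearMap.star_eq_adjoint, ext, ContinuousLinearMap.adjoint_comp,
    ContinuousLinearMap.adjoint_comp, Submodule.adjoint_subtypeL,
    Submodule.adjoint_orthogonalProjectionOnto]
  rfl

theorem ext_colB (E : Submodule ℂ H) [FiniteDimensional ℂ E] {ι : Type} [Fintype ι]
    (b : ι → (E →L[ℂ] E)) (c : ℝ) (hc : 0 ≤ c) (h : ColB b c) :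
    ColB (fun i => ext E (b i)) c := by
  intro η
  have h1 := h (E.orthogonalProjectionOnto η)
  have h2 : ∑ i, ‖ext E (b i) η‖ ^ 2 = ∑ i, ‖b i (E.orthogonalProjectionOnto η)‖ ^ 2 := rfl
  have h3 : ‖E.orthogonalProjectionOnto η‖ ≤ ‖η‖ := E.norm_orthogonalProjectionOnto_apply_le η
  show ∑ i, ‖ext E (b i) η‖ ^ 2 ≤ c * ‖η‖ ^ 2
  rw [h2]
  refine h1.trans (mul_le_mul_of_nonneg_left ?_ hc)
  exact pow_le_pow_left₀ (norm_nonneg _) h3 2

theorem cmp_ext (E : Submodule ℂ H) [FiniteDimensional ℂ E] (a : H →L[ℂ] H) (ζ η : H)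
    (hζ : ζ ∈ E) (hη : η ∈ E) : ⟪ζ, ext E (cmp E a) η⟫_ℂ = ⟪ζ, a η⟫_ℂ := by
  have h1 : E.orthogonalProjectionOnto η = ⟨η, hη⟩ :=
    Submodule.orthogonalProjectionOnto_mem_subspace_eq_self (K := E) ⟨η, hη⟩
  rw [ext_apply, h1]
  have h2 : (cmp E a) ⟨η, hη⟩ = E.orthogonalProjectionOnto (a η) := rfl
  rw [h2]
  have h3 := Submodule.inner_orthogonalProjectionOnto_eq_of_mem_left (K := E) (⟨ζ, hζ⟩ : E) (a η)
  exact h3

end fin

end ZZ455

theorem bp_dec (h1 : Z_decfin) (h2 : Z_cmp) (h3 : Z_ulim) : Z_dec := by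
  classical
  intro H _ _ _ C hC ι _ a ρ t hρ ht ha
  have htρ : 0 < t * ρ := mul_pos ht hρ
  let E : Finset H → Submodule ℂ H := fun F => Submodule.span ℂ (F : Set H)
  have hE : ∀ F, FiniteDimensional ℂ (E F) := fun F =>
    FiniteDimensional.span_finset ℂ F
  have key : ∀ F : Finset H, ∃ b : ι → (E F →L[ℂ] E F),
      ColB (fun i => (b i).adjoint) (t * ρ) ∧ ColB (fun i => ZZ455.cmp (E F) (a i) - b i) (ρ / t) := by
    intro F
    refine h1 (E F) ι (fun i => ZZ455.cmp (E F) (a i)) ρ t hρ ht ?_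
    intro d e e' g f hg hf hg1 hf1
    have h4 := h2 H C hC ι a ρ ha d (fun k => (e k : H)) (fun k => (e' k : H))
      (e.orthonormal.comp_linearIsometry (E F).subtypeₗᵢ)
      (e'.orthonormal.comp_linearIsometry (E F).subtypeₗᵢ) g f hg hf hg1 hf1
    refine le_of_eq_of_le ?_ h4
    refine Finset.sum_congr rfl fun i _ => Finset.sum_congr rfl fun k _ =>
      Finset.sum_congr rfl fun l _ => ?_
    have h5 : ⟪e k, ZZ455.cmp (E F) (a i) (e' l)⟫_ℂ = ⟪(e k : H), a i (e' l : H)⟫_ℂ :=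
      Submodule.inner_orthogonalProjectionOnto_eq_of_mem_left (K := E F) (e k) (a i (e' l : H))
    rw [h5]
  choose b hb1 hb2 using key
  let B : Finset H → ι → (H →L[ℂ] H) := fun F i => ZZ455.ext (E F) (b F i)
  have hBs : ∀ F, ColB (fun i => star (B F i)) (t * ρ) := by
    intro F
    have := ZZ455.ext_colB (E F) (fun i => (b F i).adjoint) (t * ρ) htρ.le (hb1 F)
    have e : (fun i => star (B F i)) = fun i => ZZ455.ext (E F) ((b F i).adjoint) := by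
      funext i
      exact ZZ455.ext_star (E F) (b F i)
    rw [e]
    exact this
  have hBn : ∀ F i, ‖B F i‖ ≤ √(t * ρ) := by
    intro F i
    rw [← norm_star]
    refine ContinuousLinearMap.opNorm_le_bound _ (Real.sqrt_nonneg _) fun η => ?_
    have h5 := hBs F η
    have h6 : ‖star (B F i) η‖ ^ 2 ≤ t * ρ * ‖η‖ ^ 2 :=
      (Finset.single_le_sum (f := fun i => ‖star (B F i) η‖ ^ 2) (fun _ _ => by positivity)
        (Finset.mem_univ i)).trans h5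
    have h7 : (√(t * ρ) * ‖η‖) ^ 2 = t * ρ * ‖η‖ ^ 2 := by
      rw [mul_pow, Real.sq_sqrt htρ.le]
    rw [← h7] at h6
    exact le_of_sq_le_sq h6 (by positivity)
  let U : Ultrafilter (Finset H) := Ultrafilter.of Filter.atTop
  have hU : (U : Filter (Finset H)) ≤ Filter.atTop := Ultrafilter.of_le _
  have hlim : ∀ i, ∃ S : H →L[ℂ] H, ‖S‖ ≤ √(t * ρ) ∧ ∀ ξ η : H,
      Filter.Tendsto (fun F => ⟪η, B F i ξ⟫_ℂ) U (nhds ⟪η, S ξ⟫_ℂ) := fun i =>
    h3 H (Finset H) U (fun F => B F i) _ (fun F => hBn F i)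
  choose S hS1 hS2 using hlim
  refine ⟨S, ?_, ?_⟩
  · intro η
    refine ZZ455.lsc (U : Filter (Finset H)) (fun F i => star (B F i)) (fun i => star (S i)) (t * ρ)
      η (fun F => hBs F η) ?_
    intro k ζ
    have h5 := hS2 k ζ η
    have h6 := (Complex.continuous_conj.tendsto _).comp h5
    have e1 : ∀ T : H →L[ℂ] H, ⟪ζ, star T η⟫_ℂ = (starRingEnd ℂ) ⟪η, T ζ⟫_ℂ := by
      intro T
      rw [ContinuousLinearMap.star_eq_adjoint, ContinuousLinearMap.adjoint_inner_right,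
        inner_conj_symm]
    simp only [e1]
    exact h6
  · intro η
    refine ZZ455.lsc (U : Filter (Finset H))
      (fun F i => ZZ455.ext (E F) (ZZ455.cmp (E F) (a i) - b F i)) (fun i => a i - S i) (ρ / t)
      η (fun F => ZZ455.ext_colB (E F) _ (ρ / t) (by positivity) (hb2 F) η) ?_
    intro k ζ
    have h5 : Filter.Tendsto (fun F => ⟪ζ, a k η⟫_ℂ - ⟪ζ, B F k η⟫_ℂ) U
        (nhds (⟪ζ, a k η⟫_ℂ - ⟪ζ, S k η⟫_ℂ)) := tendsto_const_nhds.sub (hS2 k η ζ)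
    have e2 : ⟪ζ, (a k - S k) η⟫_ℂ = ⟪ζ, a k η⟫_ℂ - ⟪ζ, S k η⟫_ℂ := by
      rw [← inner_sub_right]; rfl
    rw [e2]
    refine h5.congr' ?_
    have hev : ∀ᶠ F in (U : Filter (Finset H)), ({ζ, η} : Finset H) ≤ F :=
      hU (Filter.eventually_ge_atTop _)
    refine hev.mono fun F hF => ?_
    have hζ : ζ ∈ E F := Submodule.subset_span (hF (by simp))
    have hη : η ∈ E F := Submodule.subset_span (hF (by simp))
    have e3 : ZZ455.ext (E F) (ZZ455.cmp (E F) (a k) - b F k) η =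
        ZZ455.ext (E F) (ZZ455.cmp (E F) (a k)) η - B F k η := by
      rfl
    show ⟪ζ, (a k) η⟫_ℂ - ⟪ζ, (B F k) η⟫_ℂ =
      ⟪ζ, (ZZ455.ext (E F) (ZZ455.cmp (E F) (a k) - b F k)) η⟫_ℂ
    rw [e3, inner_sub_right, ZZ455.cmp_ext (E F) (a k) ζ η hζ hη]

end H97R2.BP
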